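import Pool.Agent.Y546.WQ.Stm5

/-! Project WE/TJ (helper546): NOZ, a prime above two of odd ramification index does not
contain `z`. -/

set_option autoImplicit false

namespace Pool.Agent.Y950.WQ

open IsDedekindDomain WithZero
open Pool.Agent.Y546.WQ

theorem mainNOZ : S_NOZ := by
  intro R _ _ P hP hne p e he hep h2 h2' x y z hxy hz hx hy
  set v : HeightOneSpectrum R := ⟨P, hP, hne⟩ with hv
  have hmem : ∀ (r : R) (n : ℕ), v.intValuation r ≤ exp (-(n : ℤ)) ↔ r ∈ P ^ n :=
    fun r n => v.intValuation_le_pow_iff_mem r n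
  -- the value of two
  have h20 : (2 : R) ≠ 0 := by
    intro h
    rw [h] at h2'
    exact h2' (Ideal.zero_mem _)
  have hv20 : v.intValuation 2 ≠ 0 := v.intValuation_ne_zero 2 h20
  have h2a : v.intValuation 2 ≤ exp (-(e : ℤ)) := (hmem 2 e).2 h2
  have h2b : ¬ v.intValuation 2 ≤ exp (-((e + 1 : ℕ) : ℤ)) := fun h => h2' ((hmem 2 (e + 1)).1 h)
  have hlog2 : log (v.intValuation 2) = -(e : ℤ) := by
    have h3 : log (v.intValuation 2) ≤ -(e : ℤ) := (log_le_iff_le_exp hv20).2 h2a
    have h4 : ¬ log (v.intValuation 2) ≤ -((e + 1 : ℕ) : ℤ) := fun h =>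
      h2b ((log_le_iff_le_exp hv20).1 h)
    push_cast at h4
    omega
  have hx1 : v.intValuation x = 1 := (v.intValuation_eq_one_iff_mem_primeCompl x).2 hx
  have hy1 : v.intValuation y = 1 := (v.intValuation_eq_one_iff_mem_primeCompl y).2 hy
  -- the value of the middle term
  have hmid : v.intValuation (2 * x ^ p * y ^ p) = v.intValuation 2 := by
    rw [map_mul, map_mul, map_pow, map_pow, hx1, hy1, one_pow, mul_one, mul_one]
  have hzv : v.intValuation (z ^ (2 * p)) < v.intValuation 2 := by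
    have h5 : v.intValuation (z ^ (2 * p)) ≤ exp (-((2 * p : ℕ) : ℤ)) :=
      (hmem _ _).2 (Ideal.pow_mem_pow hz _)
    refine lt_of_le_of_lt h5 ?_
    rw [← exp_log hv20, hlog2, exp_lt_exp]
    push_cast
    omega
  have hsq : (x ^ p - y ^ p) ^ 2 = z ^ (2 * p) - 2 * x ^ p * y ^ p := by
    rw [← hxy]
    ring
  have hu : v.intValuation ((x ^ p - y ^ p) ^ 2) = v.intValuation 2 := by
    rw [hsq, Valuation.map_sub_eq_of_lt_right _ (by rw [hmid]; exact hzv), hmid]
  rw [map_pow] at hu
  have h6 := congrArg log hu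
  rw [log_pow, hlog2, nsmul_eq_mul] at h6
  obtain ⟨k, hk⟩ := he
  push_cast at h6
  omega

end Pool.Agent.Y950.WQ
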